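import Mathlib
import Pool.Agent.H16.SUn3

/-! Block matrices and products of four involutions. -/

set_option autoImplicit false

namespace Pool.Agent.U346.Inv

open Matrix
open Pool.Agent.H16.SUn (IsInv isInv_conj diagonalise mono mono_mul mono_isInv)

variable {n : ℕ}

/-- A product of four involutions of `SU(n)`. -/
def Four (M : Matrix (Fin n) (Fin n) ℂ) : Prop :=
  ∃ I1 I2 I3 I4, IsInv n I1 ∧ IsInv n I2 ∧ IsInv n I3 ∧ IsInv n I4 ∧ M = I1 * I2 * I3 * I4

/-- A product of two involutions of `SU(n)`. -/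
def Two (M : Matrix (Fin n) (Fin n) ℂ) : Prop :=
  ∃ I1 I2, IsInv n I1 ∧ IsInv n I2 ∧ M = I1 * I2

theorem two_conj {P M : Matrix (Fin n) (Fin n) ℂ} (h1 : Pᴴ * P = 1) (h2 : P * Pᴴ = 1)
    (h : Two M) : Two (P * M * Pᴴ) := by
  obtain ⟨I1, I2, i1, i2, rfl⟩ := h
  refine ⟨_, _, isInv_conj h1 h2 i1, isInv_conj h1 h2 i2, ?_⟩
  calc P * (I1 * I2) * Pᴴ = P * I1 * 1 * I2 * Pᴴ := by simp only [mul_assoc, one_mul]
    _ = P * I1 * (Pᴴ * P) * I2 * Pᴴ := by rw [h1]
    _ = _ := by simp only [mul_assoc]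

theorem four_of_two {M N : Matrix (Fin n) (Fin n) ℂ} (hM : Two M) (hN : Two N) :
    Four (M * N) := by
  obtain ⟨I1, I2, i1, i2, rfl⟩ := hM
  obtain ⟨I3, I4, i3, i4, rfl⟩ := hN
  exact ⟨I1, I2, I3, I4, i1, i2, i3, i4, by simp only [mul_assoc]⟩

theorem four_split {M : Matrix (Fin n) (Fin n) ℂ} (h : Four M) :
    ∃ A B, Two A ∧ Two B ∧ M = A * B := by
  obtain ⟨I1, I2, I3, I4, i1, i2, i3, i4, rfl⟩ := h
  exact ⟨I1 * I2, I3 * I4, ⟨_, _, i1, i2, rfl⟩, ⟨_, _, i3, i4, rfl⟩, by simp only [mul_assoc]⟩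

theorem four_conj {P M : Matrix (Fin n) (Fin n) ℂ} (h1 : Pᴴ * P = 1) (h2 : P * Pᴴ = 1)
    (h : Four M) : Four (P * M * Pᴴ) := by
  obtain ⟨A, B, hA, hB, rfl⟩ := four_split h
  have := four_of_two (two_conj h1 h2 hA) (two_conj h1 h2 hB)
  have e : P * A * Pᴴ * (P * B * Pᴴ) = P * (A * B) * Pᴴ := by
    calc P * A * Pᴴ * (P * B * Pᴴ) = P * A * (Pᴴ * P) * B * Pᴴ := by simp only [mul_assoc]
      _ = _ := by rw [h1]; simp only [mul_assoc, one_mul]
  rwa [e] at this

/-- Conjugation by a permutation matrix. -/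
theorem four_perm (σ : Equiv.Perm (Fin n)) (z : Fin n → ℂ)
    (h : Four (Matrix.diagonal (fun i => z (σ i)))) : Four (Matrix.diagonal z) := by
  set P : Matrix (Fin n) (Fin n) ℂ := mono σ (fun _ => 1) with hP
  have hPt : Pᴴ = mono σ⁻¹ (fun _ => 1) := by
    ext x y
    simp only [hP, Matrix.conjTranspose_apply, mono]
    by_cases h : y = σ x
    · have h' : x = (σ⁻¹ : Equiv.Perm (Fin n)) y := by rw [h]; simp
      rw [if_pos h, if_pos h', star_one]
    · have h' : ¬ x = (σ⁻¹ : Equiv.Perm (Fin n)) y := by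
        intro h'; apply h; rw [h']; simp
      rw [if_neg h, if_neg h', star_zero]
  have hone : mono (1 : Equiv.Perm (Fin n)) (fun _ => (1 : ℂ)) = 1 := by
    ext x y
    by_cases h : x = y <;> simp [mono, Matrix.one_apply, h]
  have h1 : Pᴴ * P = 1 := by
    rw [hPt, hP, mono_mul]; simpa using hone
  have h2 : P * Pᴴ = 1 := by
    rw [hPt, hP, mono_mul]; simpa using hone
  have h3 := four_conj h1 h2 h
  have e : P * Matrix.diagonal (fun i => z (σ i)) * Pᴴ = Matrix.diagonal z := by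
    rw [Pool.Agent.H16.SUn.diag_mono, hPt, hP, mono_mul, mono_mul,
      Pool.Agent.H16.SUn.diag_mono]
    have : σ * 1 * σ⁻¹ = 1 := by simp
    rw [this]
    congr 1
    funext y
    simp
  rwa [e] at h3

section blocks

variable (p q : Fin n) (hpq : p ≠ q)

/-- The pair `p`, `q` as an image of `Fin 2`. -/
noncomputable def e0 : Fin 2 ≃ {i : Fin n // i = p ∨ i = q} :=
  Equiv.ofBijective (fun k => if k = 0 then ⟨p, Or.inl rfl⟩ else ⟨q, Or.inr rfl⟩) (by
    constructor
    · intro a b hab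
      fin_cases a <;> fin_cases b <;> simp at hab ⊢
      · exact hpq hab
      · exact hpq hab.symm
    · rintro ⟨i, rfl | rfl⟩
      · exact ⟨0, by simp⟩
      · exact ⟨1, by simp⟩)

/-- The total indexing. -/
noncomputable def ee : Fin 2 ⊕ {i : Fin n // ¬ (i = p ∨ i = q)} ≃ Fin n :=
  (Equiv.sumCongr (e0 p q hpq) (Equiv.refl _)).trans (Equiv.sumCompl (fun i => i = p ∨ i = q))

theorem ee_zero : ee p q hpq (Sum.inl 0) = p := rfl

theorem ee_one : ee p q hpq (Sum.inl 1) = q := rfl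

theorem ee_inr (i : {i : Fin n // ¬ (i = p ∨ i = q)}) : ee p q hpq (Sum.inr i) = i := rfl

/-- A two by two block and a diagonal matrix. -/
noncomputable def Bl (M : Matrix (Fin 2) (Fin 2) ℂ)
    (d : {i : Fin n // ¬ (i = p ∨ i = q)} → ℂ) : Matrix (Fin n) (Fin n) ℂ :=
  Matrix.reindex (ee p q hpq) (ee p q hpq) (Matrix.fromBlocks M 0 0 (Matrix.diagonal d))

theorem bl_mul (M N : Matrix (Fin 2) (Fin 2) ℂ)
    (d d' : {i : Fin n // ¬ (i = p ∨ i = q)} → ℂ) :
    Bl p q hpq M d * Bl p q hpq N d' = Bl p q hpq (M * N) (fun i => d i * d' i) := by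
  unfold Bl
  rw [Matrix.reindex_apply, Matrix.reindex_apply, Matrix.reindex_apply,
    Matrix.submatrix_mul_equiv, Matrix.fromBlocks_multiply]
  simp [Matrix.diagonal_mul_diagonal]

theorem bl_ct (M : Matrix (Fin 2) (Fin 2) ℂ) (d : {i : Fin n // ¬ (i = p ∨ i = q)} → ℂ) :
    (Bl p q hpq M d)ᴴ = Bl p q hpq Mᴴ (fun i => star (d i)) := by
  unfold Bl
  rw [Matrix.reindex_apply, Matrix.reindex_apply, Matrix.conjTranspose_submatrix,
    Matrix.fromBlocks_conjTranspose]
  simp only [Matrix.conjTranspose_zero, Matrix.diagonal_conjTranspose]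
  rfl

theorem bl_diag (x : Fin n → ℂ) :
    Matrix.diagonal x = Bl p q hpq (Matrix.diagonal ![x p, x q]) (fun i => x i) := by
  unfold Bl
  rw [Matrix.fromBlocks_diagonal, Matrix.reindex_apply, Matrix.submatrix_diagonal_equiv]
  congr 1
  funext i
  obtain ⟨j, rfl⟩ := (ee p q hpq).surjective i
  simp only [Function.comp_apply, Equiv.symm_apply_apply]
  rcases j with j | j
  · fin_cases j
    · simp [ee_zero]
    · simp [ee_one]
  · simp [ee_inr]

theorem bl_one : Bl p q hpq 1 (fun _ => 1) = 1 := by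
  have := bl_diag p q hpq (fun _ => 1)
  have e : (Matrix.diagonal (fun _ : Fin n => (1 : ℂ))) = 1 := Matrix.diagonal_one
  rw [e] at this
  rw [this]
  congr 1
  ext i j
  fin_cases i <;> fin_cases j <;> simp

end blocks

theorem dg (a b : ℂ) : (Matrix.diagonal ![a, b] : Matrix (Fin 2) (Fin 2) ℂ) = !![a, 0; 0, b] := by
  ext i j
  fin_cases i <;> fin_cases j <;> simp

/-- Rotation in the plane of two coordinates. -/
theorem block (p q : Fin n) (hpq : p ≠ q) (x y z : Fin n → ℂ)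
    (hx : ∀ i, star (x i) * x i = 1) (hy : ∀ i, star (y i) * y i = 1)
    (hoff : ∀ i, i ≠ p → i ≠ q → z i = x i * y i)
    (hdet : z p * z q = x p * y p * (x q * y q)) (t : ℝ) (ht0 : 0 ≤ t) (ht1 : t ≤ 1)
    (htr : z p + z q = t * (x p * y p + x q * y q) + (1 - t) * (x p * y q + x q * y p))
    (Fx : Two (Matrix.diagonal x)) (Fy : Two (Matrix.diagonal y)) :
    Four (Matrix.diagonal z) := by
  set c : ℝ := √t with hc
  set s : ℝ := √(1 - t) with hs
  have hc2 : (c : ℂ) * c = t := by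
    rw [← Complex.ofReal_mul, hc, Real.mul_self_sqrt ht0]
  have hs2 : (s : ℂ) * s = 1 - t := by
    rw [← Complex.ofReal_mul, hs, Real.mul_self_sqrt (by linarith)]; push_cast; ring
  set V2 : Matrix (Fin 2) (Fin 2) ℂ := !![(c : ℂ), -(s : ℂ); (s : ℂ), (c : ℂ)] with hV2
  have hV2t : V2ᴴ = !![(c : ℂ), (s : ℂ); -(s : ℂ), (c : ℂ)] := by
    ext i j
    fin_cases i <;> fin_cases j <;> simp [hV2, Matrix.conjTranspose_apply]
  have hVV : V2 * V2ᴴ = 1 := by
    rw [hV2t]
    ext i j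
    fin_cases i <;> fin_cases j <;> simp [hV2, Matrix.mul_apply, Fin.sum_univ_two] <;>
      first | ring1 | linear_combination hc2 + hs2
  have hVV' : V2ᴴ * V2 = 1 := mul_eq_one_comm.mp hVV
  set X2 : Matrix (Fin 2) (Fin 2) ℂ := Matrix.diagonal ![x p, x q] with hX2
  set Y2 : Matrix (Fin 2) (Fin 2) ℂ := Matrix.diagonal ![y p, y q] with hY2
  have hXX : X2ᴴ * X2 = 1 := by
    rw [hX2, Matrix.diagonal_conjTranspose, Matrix.diagonal_mul_diagonal, ← Matrix.diagonal_one]
    congr 1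
    funext i
    fin_cases i
    · simpa using hx p
    · simpa using hx q
  have hYY : Y2ᴴ * Y2 = 1 := by
    rw [hY2, Matrix.diagonal_conjTranspose, Matrix.diagonal_mul_diagonal, ← Matrix.diagonal_one]
    congr 1
    funext i
    fin_cases i
    · simpa using hy p
    · simpa using hy q
  set M2 : Matrix (Fin 2) (Fin 2) ℂ := X2 * (V2 * Y2 * V2ᴴ) with hM2
  have hMM : M2ᴴ * M2 = 1 := by
    rw [hM2]
    simp only [Matrix.conjTranspose_mul, Matrix.conjTranspose_conjTranspose]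
    calc V2 * (Y2ᴴ * V2ᴴ) * X2ᴴ * (X2 * (V2 * Y2 * V2ᴴ))
        = V2 * (Y2ᴴ * V2ᴴ) * (X2ᴴ * X2) * (V2 * Y2 * V2ᴴ) := by simp only [mul_assoc]
      _ = V2 * Y2ᴴ * (V2ᴴ * V2) * Y2 * V2ᴴ := by rw [hXX, mul_one]; simp only [mul_assoc]
      _ = V2 * (Y2ᴴ * Y2) * V2ᴴ := by rw [hVV', mul_one]; simp only [mul_assoc]
      _ = 1 := by rw [hYY, mul_one, hVV]
  have htrace : M2.trace = z p + z q := by
    rw [htr, hM2, hV2t, hV2, hX2, hY2, dg, dg, Matrix.mul_fin_two, Matrix.mul_fin_two,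
      Matrix.mul_fin_two, Matrix.trace_fin_two_of]
    linear_combination (x p * y p + x q * y q) * hc2 + (x p * y q + x q * y p) * hs2
  have hdet2 : M2.det = z p * z q := by
    have hVd : V2.det * V2ᴴ.det = 1 := by rw [← Matrix.det_mul, hVV, Matrix.det_one]
    rw [hdet, hM2, Matrix.det_mul, Matrix.det_mul, Matrix.det_mul, hX2, hY2,
      Matrix.det_diagonal, Matrix.det_diagonal, Fin.prod_univ_two, Fin.prod_univ_two]
    simp only [Matrix.cons_val_zero, Matrix.cons_val_one]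
    linear_combination x p * y p * (x q * y q) * hVd
  obtain ⟨T, w, t1, t2, t3, -⟩ := diagonalise hMM
  have hwt : w 0 + w 1 = z p + z q := by
    rw [← htrace, t3, Matrix.trace_mul_comm, ← mul_assoc, t1, one_mul, Matrix.trace_fin_two]
    simp
  have hwd : w 0 * w 1 = z p * z q := by
    have hTd : T.det * Tᴴ.det = 1 := by rw [← Matrix.det_mul, t2, Matrix.det_one]
    rw [← hdet2, t3, Matrix.det_mul, Matrix.det_mul, Matrix.det_diagonal, Fin.prod_univ_two]
    linear_combination -(w 0 * w 1) * hTd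
  -- a unitary matrix with the right order
  have hT' : ∃ T' : Matrix (Fin 2) (Fin 2) ℂ, T'ᴴ * T' = 1 ∧ T' * T'ᴴ = 1 ∧
      M2 = T' * Matrix.diagonal ![z p, z q] * T'ᴴ := by
    have hz0 : (w 0 - z p) * (w 0 - z q) = 0 := by linear_combination w 0 * hwt - hwd
    rcases mul_eq_zero.1 hz0 with h | h
    · have h0 : w 0 = z p := by linear_combination h
      have h1 : w 1 = z q := by linear_combination hwt - h
      refine ⟨T, t1, t2, ?_⟩
      have : w = ![z p, z q] := by
        funext i; fin_cases i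
        · simpa using h0
        · simpa using h1
      rw [← this]; exact t3
    · have h0 : w 0 = z q := by linear_combination h
      have h1 : w 1 = z p := by linear_combination hwt - h
      set J : Matrix (Fin 2) (Fin 2) ℂ := !![0, 1; 1, 0] with hJ
      have hJt : Jᴴ = J := by
        ext i j
        fin_cases i <;> fin_cases j <;> simp [hJ, Matrix.conjTranspose_apply]
      have hJJ : J * J = 1 := by
        ext i j
        fin_cases i <;> fin_cases j <;> simp [hJ, Matrix.mul_apply, Fin.sum_univ_two]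
      have hJw : Matrix.diagonal w = J * Matrix.diagonal ![z p, z q] * J := by
        rw [dg, hJ, Matrix.mul_fin_two, Matrix.mul_fin_two]
        ext i j
        fin_cases i <;> fin_cases j <;> simp [h0, h1]
      refine ⟨T * J, ?_, ?_, ?_⟩
      · rw [Matrix.conjTranspose_mul, hJt]
        calc J * Tᴴ * (T * J) = J * (Tᴴ * T) * J := by simp only [mul_assoc]
          _ = 1 := by rw [t1, mul_one, hJJ]
      · rw [Matrix.conjTranspose_mul, hJt]
        calc T * J * (J * Tᴴ) = T * (J * J) * Tᴴ := by simp only [mul_assoc]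
          _ = 1 := by rw [hJJ, mul_one, t2]
      · rw [Matrix.conjTranspose_mul, hJt, t3, hJw]
        simp only [mul_assoc]
  obtain ⟨T', u1, u2, u3⟩ := hT'
  set W : Matrix (Fin n) (Fin n) ℂ := Bl p q hpq T' (fun _ => 1) with hW
  set V : Matrix (Fin n) (Fin n) ℂ := Bl p q hpq V2 (fun _ => 1) with hV
  have hWt : Wᴴ = Bl p q hpq T'ᴴ (fun _ => 1) := by rw [hW, bl_ct]; simp
  have hVt : Vᴴ = Bl p q hpq V2ᴴ (fun _ => 1) := by rw [hV, bl_ct]; simp
  have w1 : Wᴴ * W = 1 := by rw [hWt, hW, bl_mul, u1]; simpa using bl_one p q hpq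
  have w2 : W * Wᴴ = 1 := by rw [hWt, hW, bl_mul, u2]; simpa using bl_one p q hpq
  have v1 : Vᴴ * V = 1 := by rw [hVt, hV, bl_mul, hVV']; simpa using bl_one p q hpq
  have v2 : V * Vᴴ = 1 := by rw [hVt, hV, bl_mul, hVV]; simpa using bl_one p q hpq
  have main : Matrix.diagonal x * (V * Matrix.diagonal y * Vᴴ) =
      W * Matrix.diagonal z * Wᴴ := by
    rw [bl_diag p q hpq x, bl_diag p q hpq y, bl_diag p q hpq z, hWt, hVt, hW, hV,
      bl_mul, bl_mul, bl_mul, bl_mul, bl_mul]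
    simp only [one_mul, mul_one]
    rw [← u3]
    congr 1
    funext i
    have hi := i.2
    push Not at hi
    exact (hoff i hi.1 hi.2).symm
  have F := four_of_two Fx (two_conj v1 v2 Fy)
  rw [main] at F
  have F2 := four_conj (P := Wᴴ) (by rw [Matrix.conjTranspose_conjTranspose]; exact w2)
    (by rw [Matrix.conjTranspose_conjTranspose]; exact w1) F
  rw [Matrix.conjTranspose_conjTranspose] at F2
  have e : Wᴴ * (W * Matrix.diagonal z * Wᴴ) * W = Matrix.diagonal z := by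
    calc Wᴴ * (W * Matrix.diagonal z * Wᴴ) * W = (Wᴴ * W) * Matrix.diagonal z * (Wᴴ * W) := by
          simp only [mul_assoc]
      _ = _ := by rw [w1, one_mul, mul_one]
  rwa [e] at F2

end Pool.Agent.U346.Inv
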