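import Mathlib

/-! Scalar lemmas. -/

set_option autoImplicit false

namespace Pool.Agent.U346.Inv

open Complex

/-- For unit complex numbers `u`, `v` near `1`, the product or the quotient is near `1`. -/
theorem two_el (u v : ℂ) (m : ℝ) (hu : star u * u = 1) (hv : star v * v = 1)
    (h1 : ‖u - 1‖ ≤ m) (h2 : ‖v - 1‖ ≤ m) : ‖u * v - 1‖ ≤ m ∨ ‖u * star v - 1‖ ≤ m := by
  have hm : 0 ≤ m := le_trans (norm_nonneg _) h1
  obtain ⟨a, b⟩ := u
  obtain ⟨c, d⟩ := v
  have hu' : a * a + b * b = 1 := by
    have := congrArg Complex.re hu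
    simpa using this
  have hv' : c * c + d * d = 1 := by
    have := congrArg Complex.re hv
    simpa using this
  have key : ∀ z : ℂ, z.re * z.re + z.im * z.im = 1 → (‖z - 1‖ ≤ m ↔ 2 - 2 * z.re ≤ m ^ 2) := by
    intro z hz
    rw [← abs_of_nonneg (norm_nonneg (z - 1)), ← abs_of_nonneg hm, ← sq_le_sq, abs_of_nonneg hm,
      Complex.sq_norm, Complex.normSq_apply]
    simp only [Complex.sub_re, Complex.sub_im, Complex.one_re, Complex.one_im, sub_zero]
    constructor <;> intro h <;> nlinarith
  rw [key _ (by simpa using hu')] at h1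
  rw [key _ (by simpa using hv')] at h2
  rw [key _ (by simp; nlinarith), key _ (by simp; nlinarith)]
  simp only [Complex.mul_re, Complex.star_def, Complex.conj_re, Complex.conj_im] at h1 h2 ⊢
  by_contra hcon
  push Not at hcon
  obtain ⟨e1, e2⟩ := hcon
  -- a c - b d < t, a c + b d < t, t ≤ a, t ≤ c
  have f1 : a * c + |b * d| < 1 - m ^ 2 / 2 := by
    rcases abs_cases (b * d) with h | h <;> linarith [h.1]
  have g1 : 1 - m ^ 2 / 2 ≤ a := by linarith
  have g2 : 1 - m ^ 2 / 2 ≤ c := by linarith
  have q : |b * d| ^ 2 = (1 - a * a) * (1 - c * c) := by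
    rw [sq_abs]; nlinarith
  have hbd : 0 ≤ |b * d| := abs_nonneg _
  have ha1 : a ≤ 1 := by nlinarith [mul_self_nonneg b, mul_self_nonneg (a - 1)]
  have hc1 : c ≤ 1 := by nlinarith [mul_self_nonneg d, mul_self_nonneg (c - 1)]
  have ha2 : -1 ≤ a := by nlinarith [mul_self_nonneg b, mul_self_nonneg (a + 1)]
  have hc2 : -1 ≤ c := by nlinarith [mul_self_nonneg d, mul_self_nonneg (c + 1)]
  rcases le_total a c with hac | hac
  · -- a ≤ c : |bd| ≥ a (1 - c)
    have : |b * d| < a * (1 - c) := by nlinarith
    have ha : 0 < a := by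
      by_contra h
      have : a * (1 - c) ≤ 0 := mul_nonpos_of_nonpos_of_nonneg (by linarith) (by linarith)
      linarith
    have h3 : |b * d| ^ 2 < (a * (1 - c)) ^ 2 := by nlinarith
    have hc3 : 0 < 1 - c := by
      by_contra h
      have : 1 - c = 0 := by linarith
      rw [this] at h3
      nlinarith [sq_nonneg (|b * d|)]
    rw [q] at h3
    have h4 : (1 - a * a) * (1 + c) < a ^ 2 * (1 - c) := by
      by_contra h
      push Not at h
      nlinarith [mul_le_mul_of_nonneg_right h hc3.le]
    have h5 : 0 ≤ a * (1 - a) := mul_nonneg ha.le (by linarith)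
    linarith [show (1 - a * a) * (1 + c) - a ^ 2 * (1 - c) = 1 + c - 2 * a * a by ring,
      show a * (1 - a) = a - a * a by ring]
  · have : |b * d| < c * (1 - a) := by nlinarith
    have hc : 0 < c := by
      by_contra h
      have : c * (1 - a) ≤ 0 := mul_nonpos_of_nonpos_of_nonneg (by linarith) (by linarith)
      linarith
    have h3 : |b * d| ^ 2 < (c * (1 - a)) ^ 2 := by nlinarith
    have ha3 : 0 < 1 - a := by
      by_contra h
      have : 1 - a = 0 := by linarith
      rw [this] at h3
      nlinarith [sq_nonneg (|b * d|)]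
    rw [q] at h3
    have h4 : (1 - c * c) * (1 + a) < c ^ 2 * (1 - a) := by
      by_contra h
      push Not at h
      nlinarith [mul_le_mul_of_nonneg_right h ha3.le]
    have h5 : 0 ≤ c * (1 - c) := mul_nonneg hc.le (by linarith)
    linarith [show (1 - c * c) * (1 + a) - c ^ 2 * (1 - a) = 1 + a - 2 * c * c by ring,
      show c * (1 - c) = c - c * c by ring]

/-- Numbers on one real line through the origin. -/
theorem seg (g X Y δ : ℂ) (hδ : star δ * δ = 1) (hg : g = δ * star g) (hX : X = δ * star X)
    (hY : Y = δ * star Y) (h : ‖g‖ ≤ ‖Y‖) :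
    ∃ η t : ℝ, (η = 1 ∨ η = -1) ∧ 0 ≤ t ∧ t ≤ 1 ∧ g = t * (η * Y) + (1 - t) * X := by
  by_cases hY0 : Y = 0
  · refine ⟨1, 1, Or.inl rfl, by norm_num, le_refl _, ?_⟩
    have : g = 0 := by
      rw [hY0, norm_zero] at h
      exact norm_le_zero_iff.1 h
    rw [this, hY0]; simp
  · have hreal : ∀ w : ℂ, w = δ * star w → ∃ γ : ℝ, w = γ * Y := by
      intro w hw
      refine ⟨(w / Y).re, ?_⟩
      have h1 : star (w / Y) = w / Y := by
        have hsw : star w = star δ * w := by
          calc star w = (star δ * δ) * star w := by rw [hδ, one_mul]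
            _ = star δ * (δ * star w) := by ring
            _ = star δ * w := by rw [← hw]
        have hsY : star Y = star δ * Y := by
          calc star Y = (star δ * δ) * star Y := by rw [hδ, one_mul]
            _ = star δ * (δ * star Y) := by ring
            _ = star δ * Y := by rw [← hY]
        have hd : star δ ≠ 0 := by
          intro h0; rw [h0, zero_mul] at hδ; exact zero_ne_one hδ
        rw [star_div₀, hsw, hsY, mul_div_mul_left _ _ hd]
      have h2 : (((w / Y).re : ℝ) : ℂ) = w / Y := Complex.conj_eq_iff_re.1 h1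
      rw [h2, div_mul_cancel₀ _ hY0]
    obtain ⟨γ, hγ⟩ := hreal g hg
    obtain ⟨ξ, hξ⟩ := hreal X hX
    have hYn : 0 < ‖Y‖ := norm_pos_iff.2 hY0
    have hγ1 : |γ| ≤ 1 := by
      rw [hγ, norm_mul, Complex.norm_real, Real.norm_eq_abs] at h
      by_contra hc
      push Not at hc
      nlinarith
    obtain ⟨hγa, hγb⟩ := abs_le.1 hγ1
    rcases le_total ξ γ with hle | hle
    · by_cases h1 : ξ = 1
      · refine ⟨1, 1, Or.inl rfl, by norm_num, le_refl _, ?_⟩
        have : γ = 1 := by linarith
        rw [hγ, this]; simp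
      · have h2 : 0 < 1 - ξ := by
          rcases lt_or_eq_of_le (le_trans hle hγb) with h3 | h3
          · linarith
          · exact absurd h3 h1
        refine ⟨1, (γ - ξ) / (1 - ξ), Or.inl rfl, div_nonneg (by linarith) h2.le,
          (div_le_one h2).2 (by linarith), ?_⟩
        have h3 : γ = (γ - ξ) / (1 - ξ) * 1 + (1 - (γ - ξ) / (1 - ξ)) * ξ := by
          field_simp; ring
        rw [hγ, hξ]
        generalize (γ - ξ) / (1 - ξ) = t at h3 ⊢
        rw [h3]
        push_cast
        ring
    · by_cases h1 : ξ = -1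
      · refine ⟨-1, 1, Or.inr rfl, by norm_num, le_refl _, ?_⟩
        have : γ = -1 := by linarith
        rw [hγ, this]; simp
      · have h2 : 0 < ξ + 1 := by
          rcases lt_or_eq_of_le (le_trans hγa hle) with h3 | h3
          · linarith
          · exact absurd h3.symm h1
        refine ⟨-1, (ξ - γ) / (ξ + 1), Or.inr rfl, div_nonneg (by linarith) h2.le,
          (div_le_one h2).2 (by linarith), ?_⟩
        have h3 : γ = (ξ - γ) / (ξ + 1) * (-1) + (1 - (ξ - γ) / (ξ + 1)) * ξ := by
          field_simp; ring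
        rw [hγ, hξ]
        generalize (ξ - γ) / (ξ + 1) = t at h3 ⊢
        rw [h3]
        push_cast
        ring

/-- Unit numbers: the difference and the sum. -/
theorem parallelogram (x y : ℂ) (hx : star x * x = 1) (hy : star y * y = 1) :
    ‖x + y‖ ^ 2 + ‖x - y‖ ^ 2 = 4 := by
  obtain ⟨a, b⟩ := x
  obtain ⟨c, d⟩ := y
  have hu' : a * a + b * b = 1 := by
    have := congrArg Complex.re hx
    simpa using this
  have hv' : c * c + d * d = 1 := by
    have := congrArg Complex.re hy
    simpa using this
  rw [Complex.sq_norm, Complex.sq_norm, Complex.normSq_apply, Complex.normSq_apply]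
  simp only [Complex.add_re, Complex.add_im, Complex.sub_re, Complex.sub_im]
  nlinarith

end Pool.Agent.U346.Inv
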