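import Mathlib
import Pool.Agent.U346.Inv.Scal
import Pool.Agent.U346.Inv.Blk

/-! The chain with one non-commuting block. -/

set_option autoImplicit false

namespace Pool.Agent.U346.Inv

open Matrix
open Pool.Agent.H16.SUn

variable {n : ℕ}

theorem pp_congr (z z' : Fin n → ℂ) (m : ℕ) (h : ∀ i : Fin n, (i : ℕ) < m → z i = z' i) :
    pp z m = pp z' m := by
  unfold pp
  refine Finset.prod_congr rfl fun i hi => ?_
  rw [Finset.mem_range] at hi
  by_cases h' : i < n
  · rw [dif_pos h', dif_pos h', h ⟨i, h'⟩ hi]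
  · rw [dif_neg h', dif_neg h']

theorem chain (P B Q : Fin n) (hP : (P : ℕ) % 2 = 0) (hB : (B : ℕ) = P + 1)
    (hQ : (Q : ℕ) = P + 2) (μ : Fin n → ℂ) (hμ : ∀ i, star (μ i) * μ i = 1)
    (hprod : ∏ i, μ i = 1)
    (H : ‖star (pp μ P) - pp μ P * (μ P * μ Q)‖ ≤ ‖μ P - μ Q‖) :
    Four (Matrix.diagonal μ) := by
  have hPQ : P ≠ Q := by intro h; rw [h] at hQ; omega
  have hPB : P ≠ B := by intro h; rw [h] at hB; omega
  have hBQ : B ≠ Q := by intro h; rw [h] at hB; omega
  set C := pp μ P with hC
  have hCn : star C * C = 1 := pp_norm μ hμ _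
  have hCn' : C * star C = 1 := by rw [mul_comm]; exact hCn
  set δ := μ P * μ Q with hδ
  have hδn : star δ * δ = 1 := by
    rw [hδ, star_mul']
    linear_combination star (μ Q) * μ Q * hμ P + hμ Q
  have hδn' : δ * star δ = 1 := by rw [mul_comm]; exact hδn
  set b := μ B with hb
  have hbn : star b * b = 1 := hμ B
  -- the three real numbers
  have e1 : μ P + μ Q = δ * star (μ P + μ Q) := by
    rw [star_add, hδ]
    linear_combination (-μ P) * hμ Q - μ Q * hμ P
  have e2 : star b + b * δ = δ * star (star b + b * δ) := by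
    rw [star_add, star_star, star_mul']
    linear_combination -star b * hδn
  have e3 : star C + C * δ = δ * star (star C + C * δ) := by
    rw [star_add, star_star, star_mul']
    linear_combination -star C * hδn
  have hnorm : ‖μ P + μ Q‖ ≤ ‖star C + C * δ‖ := by
    have p1 := parallelogram (μ P) (μ Q) (hμ P) (hμ Q)
    have p2 := parallelogram (star C) (C * δ) (by rw [star_star]; exact hCn')
      (by rw [star_mul']; linear_combination star δ * δ * hCn + hδn)
    have h1 : ‖star C - C * δ‖ ^ 2 ≤ ‖μ P - μ Q‖ ^ 2 :=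
      pow_le_pow_left₀ (norm_nonneg _) H 2
    have h2 : ‖μ P + μ Q‖ ^ 2 ≤ ‖star C + C * δ‖ ^ 2 := by linarith
    exact (sq_le_sq₀ (norm_nonneg _) (norm_nonneg _)).1 h2
  obtain ⟨η, t, hη, ht0, ht1, hg⟩ := seg (μ P + μ Q) (star b + b * δ) (star C + C * δ) δ hδn
    e1 e2 e3 hnorm
  have hηη : (η : ℂ) * η = 1 := by
    rcases hη with h | h <;> rw [h] <;> norm_num
  have hηs : star (η : ℂ) = η := Complex.conj_ofReal η
  -- the modified sequence
  set f : Fin n → ℂ := fun i => if i = P then η * star C * star (μ P)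
    else if i = Q then η * C * μ P else 1 with hf
  set z : Fin n → ℂ := fun i => μ i * f i with hz
  have fP : f P = η * star C * star (μ P) := by simp [hf]
  have fQ : f Q = η * C * μ P := by simp [hf, Ne.symm hPQ]
  have fo : ∀ i, i ≠ P → i ≠ Q → f i = 1 := by
    intro i h1 h2; simp [hf, h1, h2]
  have zP : z P = η * star C := by
    rw [hz]; simp only; rw [fP]; linear_combination η * star C * hμ P
  have zQ : z Q = η * C * δ := by
    rw [hz]; simp only; rw [fQ, hδ]; ring
  have zo : ∀ i, i ≠ P → i ≠ Q → z i = μ i := by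
    intro i h1 h2; rw [hz]; simp only; rw [fo i h1 h2, mul_one]
  have zn : ∀ i, star (z i) * z i = 1 := by
    intro i
    by_cases h1 : i = P
    · rw [h1, zP, star_mul', star_star, hηs]
      linear_combination C * star C * hηη + hCn
    · by_cases h2 : i = Q
      · rw [h2, zQ, star_mul', star_mul', hηs]
        linear_combination (star C * C) * (star δ * δ) * hηη + (star δ * δ) * hCn + hδn
      · rw [zo i h1 h2]; exact hμ i
  have zprod : ∏ i, z i = 1 := by
    rw [hz, Finset.prod_mul_distrib, hprod, one_mul,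
      Fintype.prod_eq_mul P Q hPQ (fun i hi => fo i hi.1 hi.2), fP, fQ]
    linear_combination (star C * C) * (star (μ P) * μ P) * hηη + (star (μ P) * μ P) * hCn + hμ P
  have pp0 : pp z P = C := by
    rw [hC]
    apply pp_congr
    intro i hi
    apply zo
    · intro h; rw [h] at hi; omega
    · intro h; rw [h] at hi; omega
  have pp1 : pp z ((P : ℕ) + 1) = η := by
    rw [pp_succ, pp0, zP]; linear_combination (η : ℂ) * hCn
  have pp2 : pp z ((P : ℕ) + 1 + 1) = η * b := by
    have := pp_succ z B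
    rw [hB] at this
    rw [this, pp1, zo B (Ne.symm hPB) hBQ]
  have pp3 : pp z ((P : ℕ) + 2 + 1) = b * C * δ := by
    have := pp_succ z Q
    rw [hQ] at this
    rw [this, show (P : ℕ) + 2 = P + 1 + 1 by ring, pp2, zQ]
    linear_combination b * C * δ * hηη
  have hoddB : ¬ (B : ℕ) % 2 = 0 := by omega
  have hevQ : (Q : ℕ) % 2 = 0 := by omega
  have xP : xx z P = η := by unfold xx; rw [if_pos hP, pp1]
  have xB : xx z B = η := by unfold xx; rw [if_neg hoddB, hB, pp1, hηs]
  have xQ : xx z Q = b * C * δ := by unfold xx; rw [if_pos hevQ, hQ, pp3]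
  have yP : yy z P = star C := by
    unfold yy; rw [if_neg (by omega), pp0]
  have yQ : yy z Q = η * star b := by
    unfold yy
    rw [if_neg (by omega), hQ, show (P : ℕ) + 2 = P + 1 + 1 by ring, pp2, star_mul', hηs]
  -- the permutation
  have sP : sX n P = B := by
    rw [sX_apply]; unfold tX
    rw [if_pos hP, dif_pos (by have := B.2; omega)]
    apply Fin.ext; simp [hB]
  have sB : sX n B = P := by
    rw [← sP, sX_apply, sX_apply, tX_inv]
  set σ : Equiv.Perm (Fin n) := sX n * Equiv.swap P B with hσ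
  have σP : σ P = P := by rw [hσ, Equiv.Perm.mul_apply, Equiv.swap_apply_left, sB]
  have σB : σ B = B := by rw [hσ, Equiv.Perm.mul_apply, Equiv.swap_apply_right, sP]
  have σo : ∀ y, y ≠ P → y ≠ B → σ y = sX n y := by
    intro y h1 h2
    rw [hσ, Equiv.Perm.mul_apply, Equiv.swap_apply_of_ne_of_ne h1 h2]
  have σσ : ∀ y, σ (σ y) = y := by
    intro y
    by_cases h1 : y = P
    · rw [h1, σP, σP]
    · by_cases h2 : y = B
      · rw [h2, σB, σB]
      · rw [σo y h1 h2]
        have h3 : sX n y ≠ P := by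
          intro h; apply h2; rw [← sP, ← h, sX_apply, sX_apply, tX_inv]
        have h4 : sX n y ≠ B := by
          intro h; apply h1; rw [← sB, ← h, sX_apply, sX_apply, tX_inv]
        rw [σo _ h3 h4, sX_apply, sX_apply, tX_inv]
  have Fx : Two (Matrix.diagonal (xx z)) := by
    apply two_inv' σ (xx z) σσ (xx_norm z zn)
    · intro y
      by_cases h1 : y = P
      · rw [h1, σP, xP, hηs]
      · by_cases h2 : y = B
        · rw [h2, σB, xB, hηs]
        · rw [σo y h1 h2, xx_sX z zprod]
    · exact prod_one (sX n) (xx z) tX_inv (xx_norm z zn) (xx_sX z zprod) (xx_fix z zprod)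
    · right; exact ⟨P, σP⟩
  have Fy : Two (Matrix.diagonal (yy z)) := yy_two z (by have := P.2; omega) zn zprod
  refine block P Q hPQ (xx z) (yy z) μ (xx_norm z zn) (yy_norm z zn) ?_ ?_ t ht0 ht1 ?_ Fx Fy
  · intro i h1 h2
    rw [xx_mul_yy z zn, zo i h1 h2]
  · rw [xx_mul_yy z zn, xx_mul_yy z zn, zP, zQ]
    linear_combination -(star C * C) * δ * hηη - δ * hCn
  · rw [xx_mul_yy z zn, xx_mul_yy z zn, zP, zQ, xP, yQ, xQ, yP, hg]
    linear_combination (-(1 - t) * star b) * hηη - ((1 : ℂ) - t) * b * δ * hCn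

end Pool.Agent.U346.Inv
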