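import Mathlib
import Pool.Agent.U346.Inv.Chain

/-! Every element of `SU(n)` is a product of four involutions. -/

set_option autoImplicit false

namespace Pool.Agent.U346.Inv

open Matrix
open Pool.Agent.H16.SUn

theorem unit_sub (x y : ℂ) (hy : star y * y = 1) : ‖x - y‖ = ‖x * star y - 1‖ := by
  have hn : ‖y‖ = 1 := by
    have h := congrArg norm hy
    rw [norm_mul, norm_star] at h
    have h1 : ‖(1 : ℂ)‖ = 1 := norm_one
    nlinarith [norm_nonneg y]
  have h : x - y = (x * star y - 1) * y := by linear_combination (-x) * hy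
  rw [h, norm_mul, hn, mul_one]

theorem greedy {ι : Type*} [DecidableEq ι] (lam : ι → ℂ) (M : ℝ) (hM : 0 ≤ M) :
    ∀ (m : ℕ) (S : Finset ι), S.card = 2 * m → (∀ i, star (lam i) * lam i = 1) →
      (∀ i j, ‖lam i - lam j‖ ≤ M) →
      ∃ E ⊆ S, E.card = m ∧ ‖∏ i ∈ E, lam i - ∏ i ∈ S \ E, lam i‖ ≤ M := by
  intro m
  induction m with
  | zero =>
    intro S hS _ _
    have : S = ∅ := Finset.card_eq_zero.1 (by omega)
    subst this
    exact ⟨∅, Finset.Subset.refl _, rfl, by simpa using hM⟩
  | succ m ih =>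
    intro S hS hu hd
    obtain ⟨i, hi, j, hj, hij⟩ := Finset.one_lt_card.1 (by omega : 1 < S.card)
    have hji : j ∈ S.erase i := Finset.mem_erase.2 ⟨Ne.symm hij, hj⟩
    have hc : ((S.erase i).erase j).card = 2 * m := by
      rw [Finset.card_erase_of_mem hji, Finset.card_erase_of_mem hi]; omega
    obtain ⟨E', hE', hE'c, hE'n⟩ := ih ((S.erase i).erase j) hc hu hd
    have hiE : i ∉ E' := fun h => by
      have := hE' h; simp at this
    have hjE : j ∉ E' := fun h => by
      have := hE' h; simp at this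
    have hsub : ∀ x, x ∈ E' → x ∈ S := fun x h => by
      have := hE' h
      simp only [Finset.mem_erase] at this
      exact this.2.2
    set a := ∏ x ∈ E', lam x with ha
    set a' := ∏ x ∈ ((S.erase i).erase j) \ E', lam x with ha'
    have unp : ∀ T : Finset ι, star (∏ x ∈ T, lam x) * ∏ x ∈ T, lam x = 1 := by
      intro T
      rw [star_prod, ← Finset.prod_mul_distrib]
      exact Finset.prod_eq_one fun x _ => hu x
    have han : star a * a = 1 := unp _
    have han' : star a' * a' = 1 := unp _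
    have h1 : ‖a * star a' - 1‖ ≤ M := by rw [← unit_sub a a' han']; exact hE'n
    have h2 : ‖lam i * star (lam j) - 1‖ ≤ M := by rw [← unit_sub _ _ (hu j)]; exact hd i j
    have c1 : S \ insert i E' = insert j (((S.erase i).erase j) \ E') := by
      ext x
      simp only [Finset.mem_sdiff, Finset.mem_insert, Finset.mem_erase, not_or]
      constructor
      · rintro ⟨hx, hxi, hxE⟩
        by_cases hxj : x = j
        · exact Or.inl hxj
        · exact Or.inr ⟨⟨hxj, hxi, hx⟩, hxE⟩
      · rintro (rfl | ⟨⟨hxj, hxi, hx⟩, hxE⟩)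
        · exact ⟨hj, Ne.symm hij, hjE⟩
        · exact ⟨hx, hxi, hxE⟩
    have c2 : S \ insert j E' = insert i (((S.erase i).erase j) \ E') := by
      ext x
      simp only [Finset.mem_sdiff, Finset.mem_insert, Finset.mem_erase, not_or]
      constructor
      · rintro ⟨hx, hxj, hxE⟩
        by_cases hxi : x = i
        · exact Or.inl hxi
        · exact Or.inr ⟨⟨hxj, hxi, hx⟩, hxE⟩
      · rintro (rfl | ⟨⟨hxj, hxi, hx⟩, hxE⟩)
        · exact ⟨hi, hij, hiE⟩
        · exact ⟨hx, hxj, hxE⟩
    have hjn : j ∉ ((S.erase i).erase j) \ E' := by simp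
    have hin : i ∉ ((S.erase i).erase j) \ E' := by simp
    rcases two_el (a * star a') (lam i * star (lam j)) M
      (by rw [star_mul', star_star]; linear_combination (a' * star a') * han + han')
      (by rw [star_mul', star_star]
          linear_combination (lam j * star (lam j)) * hu i + hu j) h1 h2 with h | h
    · refine ⟨insert i E', ?_, ?_, ?_⟩
      · intro x hx
        rcases Finset.mem_insert.1 hx with rfl | h'
        · exact hi
        · exact hsub x h'
      · rw [Finset.card_insert_of_notMem hiE, hE'c]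
      · rw [c1, Finset.prod_insert hiE, Finset.prod_insert hjn, ← ha, ← ha',
          unit_sub _ _ (by rw [star_mul']
                           linear_combination (star a' * a') * hu j + han')]
        rw [star_mul']
        have e : lam i * a * (star (lam j) * star a') - 1 =
            a * star a' * (lam i * star (lam j)) - 1 := by ring
        rw [e]; exact h
    · refine ⟨insert j E', ?_, ?_, ?_⟩
      · intro x hx
        rcases Finset.mem_insert.1 hx with rfl | h'
        · exact hj
        · exact hsub x h'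
      · rw [Finset.card_insert_of_notMem hjE, hE'c]
      · rw [c2, Finset.prod_insert hjE, Finset.prod_insert hin, ← ha, ← ha',
          unit_sub _ _ (by rw [star_mul']
                           linear_combination (star a' * a') * hu i + han')]
        rw [star_mul']
        rw [star_mul', star_star] at h
        have e : lam j * a * (star (lam i) * star a') - 1 =
            a * star a' * (star (lam i) * lam j) - 1 := by ring
        rw [e]; exact h

theorem exists_perm {n : ℕ} (X Y : Finset (Fin n)) (h : X.card = Y.card) (P Q p q : Fin n)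
    (hP : P ∉ X) (hQ : Q ∉ X) (hPQ : P ≠ Q) (hp : p ∉ Y) (hq : q ∉ Y) (hpq : p ≠ q) :
    ∃ σ : Equiv.Perm (Fin n), (∀ i ∈ X, σ i ∈ Y) ∧ σ P = p ∧ σ Q = q := by
  classical
  set e : {i // i ∈ X} ≃ {j // j ∈ Y} := Finset.equivOfCardEq h
  set w1 : Equiv.Perm (Fin n) := e.extendSubtype with hw1
  have a1 : ∀ i ∈ X, w1 i ∈ Y := fun i hi => e.extendSubtype_mem i hi
  have a2 : ∀ i, i ∉ X → w1 i ∉ Y := fun i hi => e.extendSubtype_not_mem i hi
  set w2 : Equiv.Perm (Fin n) := Equiv.swap (w1 P) p * w1 with hw2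
  have b1 : ∀ i ∈ X, w2 i ∈ Y := by
    intro i hi
    have h1 := a1 i hi
    rw [hw2, Equiv.Perm.mul_apply, Equiv.swap_apply_of_ne_of_ne]
    · exact h1
    · intro h'; rw [h'] at h1; exact a2 P hP h1
    · intro h'; rw [h'] at h1; exact hp h1
  have b2 : w2 P = p := by rw [hw2, Equiv.Perm.mul_apply, Equiv.swap_apply_left]
  have b3 : w2 Q ∉ Y := by
    have h1 := a2 Q hQ
    rw [hw2, Equiv.Perm.mul_apply]
    by_cases h2 : w1 Q = p
    · rw [h2, Equiv.swap_apply_right]; exact a2 P hP
    · rw [Equiv.swap_apply_of_ne_of_ne]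
      · exact h1
      · intro h'; exact hPQ (w1.injective h').symm
      · exact h2
  have b4 : w2 Q ≠ p := by
    intro h'; rw [← b2] at h'; exact hPQ (w2.injective h').symm
  refine ⟨Equiv.swap (w2 Q) q * w2, ?_, ?_, ?_⟩
  · intro i hi
    have h1 := b1 i hi
    rw [Equiv.Perm.mul_apply, Equiv.swap_apply_of_ne_of_ne]
    · exact h1
    · intro h'; rw [h'] at h1; exact b3 h1
    · intro h'; rw [h'] at h1; exact hq h1
  · rw [Equiv.Perm.mul_apply, b2, Equiv.swap_apply_of_ne_of_ne (Ne.symm b4) hpq]
  · rw [Equiv.Perm.mul_apply, Equiv.swap_apply_left]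

theorem pp_eq {n : ℕ} (z : Fin n → ℂ) (m : ℕ) (hm : m ≤ n) :
    pp z m = ∏ i ∈ Finset.univ.filter (fun i : Fin n => (i : ℕ) < m), z i := by
  induction m with
  | zero => simp [pp]
  | succ m ih =>
    have h1 := pp_succ z ⟨m, by omega⟩
    simp only at h1
    rw [h1, ih (by omega)]
    have h2 : Finset.univ.filter (fun i : Fin n => (i : ℕ) < m + 1) =
        insert (⟨m, by omega⟩ : Fin n) (Finset.univ.filter (fun i : Fin n => (i : ℕ) < m)) := by
      ext i
      simp only [Finset.mem_filter, Finset.mem_univ, true_and, Finset.mem_insert, Fin.ext_iff]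
      omega
    rw [h2, Finset.prod_insert (by simp), mul_comm]

theorem card_lt {n : ℕ} (m : ℕ) (hm : m ≤ n) :
    (Finset.univ.filter (fun i : Fin n => (i : ℕ) < m)).card = m := by
  induction m with
  | zero => simp
  | succ m ih =>
    have h2 : Finset.univ.filter (fun i : Fin n => (i : ℕ) < m + 1) =
        insert (⟨m, by omega⟩ : Fin n) (Finset.univ.filter (fun i : Fin n => (i : ℕ) < m)) := by
      ext i
      simp only [Finset.mem_filter, Finset.mem_univ, true_and, Finset.mem_insert, Fin.ext_iff]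
      omega
    rw [h2, Finset.card_insert_of_notMem (by simp), ih (by omega)]

/-- The diagonal case for `n = 4 k + 2`. -/
theorem diag_case {n k : ℕ} (hn : n = 4 * k + 2) (hk : 1 ≤ k) (lam : Fin n → ℂ)
    (hu : ∀ i, star (lam i) * lam i = 1) (hp : ∏ i, lam i = 1) :
    Four (Matrix.diagonal lam) := by
  classical
  have hn0 : 0 < n := by omega
  -- two eigenvalues of maximal distance
  have hmax : ∃ p q : Fin n, p ≠ q ∧ ∀ i j, ‖lam i - lam j‖ ≤ ‖lam p - lam q‖ := by
    have : Nonempty (Fin n × Fin n) := ⟨(⟨0, hn0⟩, ⟨0, hn0⟩)⟩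
    obtain ⟨⟨p, q⟩, h⟩ := Finite.exists_max (fun x : Fin n × Fin n => ‖lam x.1 - lam x.2‖)
    by_cases hpq : p = q
    · refine ⟨⟨0, hn0⟩, ⟨1, by omega⟩, by simp [Fin.ext_iff], fun i j => ?_⟩
      have h1 := h (i, j)
      simp only [hpq, sub_self, norm_zero] at h1
      exact le_trans h1 (norm_nonneg _)
    · exact ⟨p, q, hpq, fun i j => h (i, j)⟩
  obtain ⟨p, q, hpq, hm⟩ := hmax
  set S : Finset (Fin n) := (Finset.univ.erase p).erase q with hS
  have hqS : q ∈ Finset.univ.erase p := Finset.mem_erase.2 ⟨Ne.symm hpq, Finset.mem_univ _⟩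
  have hSc : S.card = 2 * (2 * k) := by
    rw [hS, Finset.card_erase_of_mem hqS, Finset.card_erase_of_mem (Finset.mem_univ _),
      Finset.card_univ, Fintype.card_fin]
    omega
  obtain ⟨E, hES, hEc, hEn⟩ := greedy lam ‖lam p - lam q‖ (norm_nonneg _) (2 * k) S hSc hu hm
  have hpE : p ∉ E := fun h => by
    have := hES h; simp [hS] at this
  have hqE : q ∉ E := fun h => by
    have := hES h; simp [hS] at this
  set X : Finset (Fin n) := Finset.univ.filter (fun i : Fin n => (i : ℕ) < 2 * k) with hX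
  have hXc : X.card = 2 * k := card_lt (2 * k) (by omega)
  set P : Fin n := ⟨2 * k, by omega⟩ with hPd
  set B : Fin n := ⟨2 * k + 1, by omega⟩ with hBd
  set Q : Fin n := ⟨2 * k + 2, by omega⟩ with hQd
  obtain ⟨σ, s1, s2, s3⟩ := exists_perm X E (by rw [hXc, hEc]) P Q p q
    (by simp [hX, hPd]) (by simp [hX, hQd]) (by simp [hPd, hQd, Fin.ext_iff]) hpE hqE hpq
  apply four_perm σ lam
  have himg : X.image σ = E := by
    apply Finset.eq_of_subset_of_card_le
    · intro x hx
      obtain ⟨y, hy, rfl⟩ := Finset.mem_image.1 hx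
      exact s1 y hy
    · rw [Finset.card_image_of_injective _ σ.injective, hXc, hEc]
  have hppE : pp (fun i => lam (σ i)) (P : ℕ) = ∏ i ∈ E, lam i := by
    rw [pp_eq _ _ (by simp [hPd]; omega), ← himg,
      Finset.prod_image (fun a _ b _ hab => σ.injective hab)]
  apply chain P B Q (by simp [hPd]) (by simp [hBd, hPd]) (by simp [hQd, hPd])
  · intro i; exact hu _
  · rw [Equiv.prod_comp σ lam, hp]
  · rw [hppE]
    simp only [s2, s3]
    set C := ∏ i ∈ E, lam i with hC
    set D := ∏ i ∈ S \ E, lam i with hD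
    have hDn : star D * D = 1 := by
      rw [hD, star_prod, ← Finset.prod_mul_distrib]
      exact Finset.prod_eq_one fun x _ => hu x
    have htot : lam p * (lam q * (C * D)) = 1 := by
      rw [← hp, ← Finset.mul_prod_erase Finset.univ lam (Finset.mem_univ p),
        ← Finset.mul_prod_erase _ lam hqS, ← hS, ← Finset.prod_sdiff hES, ← hC, ← hD]
      ring
    have hstar : C * (lam p * lam q) = star D := by
      linear_combination star D * htot - C * (lam p * lam q) * hDn
    rw [hstar, ← star_sub, norm_star]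
    exact hEn

/-- A square root of `sX n` for `n` divisible by four. -/
def rt (n : ℕ) (h : n % 4 = 0) (i : Fin n) : Fin n :=
  ⟨if (i : ℕ) % 4 = 0 ∨ (i : ℕ) % 4 = 1 then i + 2 else if (i : ℕ) % 4 = 2 then i - 1 else i - 3,
    by have := i.2; split_ifs <;> omega⟩

def rti (n : ℕ) (h : n % 4 = 0) (i : Fin n) : Fin n :=
  ⟨if (i : ℕ) % 4 = 0 then i + 3 else if (i : ℕ) % 4 = 1 then i + 1 else i - 2,
    by have := i.2; split_ifs <;> omega⟩

theorem rti_rt (n : ℕ) (h : n % 4 = 0) (i : Fin n) : rti n h (rt n h i) = i := by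
  apply Fin.ext
  have := i.2
  simp only [rt, rti]
  split_ifs <;> omega

theorem rt_rti (n : ℕ) (h : n % 4 = 0) (i : Fin n) : rt n h (rti n h i) = i := by
  apply Fin.ext
  have := i.2
  simp only [rt, rti]
  split_ifs <;> omega

theorem sign_sX {n : ℕ} (h : n % 4 = 0) : Equiv.Perm.sign (sX n) = 1 := by
  set τ : Equiv.Perm (Fin n) := ⟨rt n h, rti n h, rti_rt n h, rt_rti n h⟩ with hτ
  have e : sX n = τ * τ := by
    ext i
    have hi := i.2
    rw [Equiv.Perm.mul_apply, sX_apply]
    have e1 : ∀ j, τ j = rt n h j := fun j => rfl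
    rw [e1, e1]
    simp only [rt, tX]
    by_cases h2 : (i : ℕ) % 2 = 0
    · rw [if_pos h2, dif_pos (by omega)]
      split_ifs <;> simp <;> omega
    · rw [if_neg h2]
      split_ifs <;> simp <;> omega
  rw [e, Equiv.Perm.sign_mul, Int.units_mul_self]

/-- Every element of `SU(n)`, `n ≥ 3`, is a product of four involutions. -/
theorem four_all {n : ℕ} (hn : 3 ≤ n) {A : Matrix (Fin n) (Fin n) ℂ}
    (hA : A ∈ Matrix.specialUnitaryGroup (Fin n) ℂ) : Four A := by
  by_cases h : Equiv.Perm.sign (sX n) = 1 ∨ n % 2 = 1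
  · obtain ⟨P, z, e1, e2, e3, e4, e5⟩ := reduce hA
    obtain ⟨J1, J2, j1, j2, hY⟩ := yy_two z (by omega) e4 e5
    obtain ⟨K1, K2, k1, k2, hX⟩ := xx_two z (by omega) e4 e5 h
    rw [e3]
    apply four_conj e1 e2
    exact four_of_two ⟨K1, K2, k1, k2, hX⟩ ⟨J1, J2, j1, j2, hY⟩
  · push Not at h
    have h4 : ¬ n % 4 = 0 := fun h' => h.1 (sign_sX h')
    have hn4 : n = 4 * (n / 4) + 2 := by
      have := h.2
      omega
    rw [Matrix.mem_specialUnitaryGroup_iff, Matrix.mem_unitaryGroup_iff,
      Matrix.star_eq_conjTranspose] at hA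
    obtain ⟨h1, h2⟩ := hA
    have h3 : Aᴴ * A = 1 := mul_eq_one_comm.mp h1
    obtain ⟨P, z, e1, e2, e3, e4⟩ := diagonalise h3
    have hp : ∏ i, z i = 1 := by
      have : A.det = ∏ i, z i := by
        rw [e3, det_mul, det_mul, det_diagonal]
        calc P.det * (∏ i, z i) * Pᴴ.det = (P * Pᴴ).det * ∏ i, z i := by rw [det_mul]; ring
          _ = ∏ i, z i := by rw [e2, det_one, one_mul]
      rw [← this, h2]
    rw [e3]
    exact four_conj e1 e2 (diag_case hn4 (by omega) z e4 hp)

end Pool.Agent.U346.Inv
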